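import Pool.Agent.Helper79_WRA.Stmt
import Pool.Agent.Helper51_AWC.ProdSum

/-! # OPCORE: the wreath product has no nontrivial normal `ℓ`-subgroup -/

set_option autoImplicit false

namespace Pool.Agent.Helper79_WRA.H45

open Pool.Agent.Helper51_AWC Wreath

theorem opCore_wreath : OpCoreStmt := by
  classical
  intro ℓ _ G Ω L _ _ _ _ _ _ _ hnt hG
  obtain ⟨c1, c2, c3⟩ := opCore_spec ℓ (Wreath G Ω L)
  obtain ⟨a1, a2, a3⟩ := opCore_spec ℓ G
  set Q := opCore ℓ (Wreath G Ω L) with hQ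
  -- the intersection with the base group
  have hEn : (Q.comap (base : (Ω → G) →* Wreath G Ω L)).Normal := c1.comap _
  have hEp : IsPGroup ℓ (Q.comap (base : (Ω → G) →* Wreath G Ω L)) :=
    c2.comap_of_injective _ base_injective
  have h1 : ∀ f : Ω → G, (base f : Wreath G Ω L) ∈ Q → f = 1 := by
    intro f hf
    funext i
    have h2 : (Q.comap (base : (Ω → G) →* Wreath G Ω L)).map (Pi.evalMonoidHom (fun _ => G) i) ≤
        opCore ℓ G := by
      apply a3
      · exact hEn.map _ (Function.surjective_eval i)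
      · exact hEp.map _
    rw [hG] at h2
    have h3 : f i ∈ (⊥ : Subgroup G) := h2 ⟨f, hf, rfl⟩
    exact Subgroup.mem_bot.1 h3
  have h4 : ∀ x ∈ Q, x.s = 1 → x = 1 := by
    intro x hx hs
    obtain ⟨f, rfl⟩ := mem_base_range.2 hs
    rw [h1 f hx, map_one]
  rw [eq_bot_iff]
  intro x hx
  rw [Subgroup.mem_bot]
  apply h4 x hx
  have h5 : ∀ f : Ω → G, (base f : Wreath G Ω L) * x = x * base f := by
    intro f
    have h6 : (base f : Wreath G Ω L) * x * (base f)⁻¹ * x⁻¹ ∈ Q :=
      Q.mul_mem (c1.conj_mem x hx _) (Q.inv_mem hx)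
    have h7 := h4 _ h6 (by simp only [mul_s, inv_s, base_s, inv_one, one_mul, mul_one,
      mul_inv_cancel])
    rw [mul_inv_eq_one, mul_inv_eq_iff_eq_mul] at h7
    exact h7
  have h8 : ∀ i : Ω, x.s⁻¹ • i = i := by
    intro i
    by_contra hne
    obtain ⟨y, hy⟩ := exists_ne (1 : G)
    have h9 := congrArg (fun z : Wreath G Ω L => z.f i) (h5 (Pi.mulSingle i y))
    simp only [mul_f, base_f, base_s, inv_one, one_smul, Pi.mulSingle_eq_same,
      Pi.mulSingle_eq_of_ne hne, mul_one] at h9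
    exact hy (mul_eq_right.1 h9)
  have h10 : x.s⁻¹ = 1 := by
    apply FaithfulSMul.eq_of_smul_eq_smul (α := Ω)
    intro i
    rw [h8 i, one_smul]
  exact inv_eq_one.1 h10

end Pool.Agent.Helper79_WRA.H45
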